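import Mathlib
import Pool.Agent.Y224.OD.Stm

/-!
# Project OD: quotients of Weil numbers which are integral
-/

set_option autoImplicit false

namespace Pool.Agent.Y759.OD

open Polynomial Pool.Agent.Y224.OD

theorem root_ne_zero {K : Type} [Field K] [CharZero K] {f : ℤ[X]} {r : ℝ} {a : K} (hr : 0 < r)
    (hf : ∀ z : ℂ, aeval z f = 0 → ‖z‖ = r) (ha : aeval a f = 0) : a ≠ 0 := by
  rintro rfl
  have h1 : ((f.coeff 0 : ℤ) : K) = 0 := by
    rw [← coeff_zero_eq_aeval_zero' f] at ha
    exact ha
  have h2 : f.coeff 0 = 0 := by exact_mod_cast h1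
  have h3 : aeval (0 : ℂ) f = 0 := by
    rw [← coeff_zero_eq_aeval_zero' f, h2, map_zero]
  have h4 := hf 0 h3
  rw [norm_zero] at h4
  exact hr.ne h4

/-- Kronecker's theorem for quotients of Weil numbers -/
theorem t_kron : S_KRON := by
  intro K _ _ f r a b hf hr hroots ha hb hint
  have ha0 := root_ne_zero hr hroots ha
  have hb0 := root_ne_zero hr hroots hb
  have hia : IsIntegral ℤ a := ⟨f, hf, by rwa [aeval_def] at ha⟩
  have hib : IsIntegral ℤ b := ⟨f, hf, by rwa [aeval_def] at hb⟩
  set E := IntermediateField.adjoin ℚ ({a, b} : Set K) with hE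
  have hfin : FiniteDimensional ℚ E := by
    apply IntermediateField.finiteDimensional_adjoin
    intro x hx
    rcases hx with hx | hx
    · rw [hx]
      exact hia.tower_top
    · rw [Set.mem_singleton_iff] at hx
      rw [hx]
      exact hib.tower_top
  have hnf : NumberField E := { to_charZero := inferInstance, to_finiteDimensional := hfin }
  have hmem : ∀ x ∈ ({a, b} : Set K), x ∈ E := fun x hx => IntermediateField.subset_adjoin ℚ _ hx
  set a' : E := ⟨a, hmem a (by simp)⟩ with ha'
  set b' : E := ⟨b, hmem b (by simp)⟩ with hb'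
  have hinj : Function.Injective (algebraMap E K) := (algebraMap E K).injective
  have hfa : aeval a' f = 0 := by
    apply hinj
    rw [← aeval_algebraMap_apply, map_zero]
    exact ha
  have hfb : aeval b' f = 0 := by
    apply hinj
    rw [← aeval_algebraMap_apply, map_zero]
    exact hb
  have hxi : IsIntegral ℤ (a' / b') := by
    have h1 : IsIntegral ℤ (algebraMap E K (a' / b')) := by
      rw [map_div₀]
      exact hint
    exact (isIntegral_algebraMap_iff hinj).1 h1
  have hn : ∀ φ : E →+* ℂ, ‖φ (a' / b')‖ = 1 := by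
    intro φ
    have h1 : ∀ x : E, aeval x f = 0 → ‖φ x‖ = r := by
      intro x hx
      apply hroots
      have h2 := congrArg φ.toIntAlgHom hx
      rw [map_zero, ← aeval_algHom_apply] at h2
      exact h2
    rw [map_div₀, norm_div, h1 a' hfa, h1 b' hfb, div_self hr.ne']
  obtain ⟨n, hn0, hn1⟩ := NumberField.Embeddings.pow_eq_one_of_norm_eq_one E ℂ hxi hn
  refine ⟨n, hn0, ?_⟩
  have h1 := congrArg (algebraMap E K) hn1
  rw [map_pow, map_div₀, map_one] at h1
  exact h1

end Pool.Agent.Y759.OD
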